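import Mathlib
import Pool.Agent.N290.RK.Stm
import Pool.Agent.N655.RJ.LA

/-!
# Project RK (helper290): localised approximation by holomorphic functions near a boundary point (LAL), by helper602
-/

set_option autoImplicit false

open Complex MeasureTheory Set Filter Topology
open scoped ENNReal

namespace Pool.Agent.N602.RK

open Pool.Agent.N290.RJ Pool.Agent.N290.RK Pool.Agent.N655.RJ

variable {d : ℕ}

/-- the cut-off around `p` -/
noncomputable def cu (θ : ℝ → ℝ) (ε : ℝ) (p z : E d) : ℂ := ((θ (N (z - p) / ε) : ℝ) : ℂ)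

/-- the peak function -/
noncomputable def qq (p z : E d) : ℂ := (1 + ip z p) / 2

theorem cu_contDiff {θ : ℝ → ℝ} (hθ : ContDiff ℝ 1 θ) (ε : ℝ) (p : E d) :
    ContDiff ℝ 1 (cu θ ε p : E d → ℂ) := by
  unfold cu
  exact Complex.ofRealCLM.contDiff.comp
    (hθ.comp ((N_contDiff.comp (contDiff_id.sub contDiff_const)).div_const ε))

theorem fderiv_cu {θ : ℝ → ℝ} (hθ : ContDiff ℝ 1 θ) (ε : ℝ) (p z ξ : E d) :
    fderiv ℝ (cu θ ε p) z ξ = ((deriv θ (N (z - p) / ε) * (2 * (ip ξ (z - p)).re / ε) : ℝ) : ℂ) := by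
  have h1 : DifferentiableAt ℝ (N : E d → ℝ) (z - p) :=
    (N_contDiff.differentiable one_ne_zero).differentiableAt
  have h0 : HasFDerivAt (fun w : E d => w - p) (ContinuousLinearMap.id ℝ (E d)) z :=
    (hasFDerivAt_id z).sub_const p
  have h2 : HasFDerivAt (fun w : E d => N (w - p) / ε)
      (ε⁻¹ • ((fderiv ℝ N (z - p)).comp (ContinuousLinearMap.id ℝ (E d)))) z := by
    have h3 := (h1.hasFDerivAt.comp z h0).const_smul ε⁻¹
    refine h3.congr_of_eventuallyEq (Filter.Eventually.of_forall fun w => ?_)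
    show N (w - p) / ε = ε⁻¹ • N (w - p)
    rw [smul_eq_mul, div_eq_inv_mul]
  have h4 : HasDerivAt θ (deriv θ (N (z - p) / ε)) (N (z - p) / ε) :=
    (hθ.differentiable one_ne_zero).differentiableAt.hasDerivAt
  have h5 := Complex.ofRealCLM.hasFDerivAt.comp z (h4.comp_hasFDerivAt z h2)
  have h6 : HasFDerivAt (cu θ ε p : E d → ℂ) _ z := h5
  rw [h6.fderiv]
  simp only [ContinuousLinearMap.comp_apply, Complex.ofRealCLM_apply]
  congr 1
  show deriv θ (N (z - p) / ε) * (ε⁻¹ * (fderiv ℝ N (z - p) ξ)) = _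
  rw [fderiv_N]
  ring

theorem nm_le_len {z : E d} (hz : z ∈ B d) (ξ : E d) : nm ξ ≤ Real.sqrt (1 - N z) * len z ξ := by
  have h : 0 < 1 - N z := sub_pos.2 hz
  unfold nm len
  rw [← Real.sqrt_mul h.le]
  apply Real.sqrt_le_sqrt
  unfold len2
  have h1 : (1 - N z) * (N ξ / (1 - N z) + ‖ip ξ z‖ ^ 2 / (1 - N z) ^ 2) =
      N ξ + ‖ip ξ z‖ ^ 2 / (1 - N z) := by
    field_simp
  rw [h1]
  have : 0 ≤ ‖ip ξ z‖ ^ 2 / (1 - N z) := by positivity
  linarith

theorem norm_db_cu {θ : ℝ → ℝ} (hθ : ContDiff ℝ 1 θ) {ε : ℝ} (hε : 0 < ε) (p z ξ : E d) :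
    ‖db (cu θ ε p) z ξ‖ ≤ |deriv θ (N (z - p) / ε)| * (2 / ε) * (nm (z - p) * nm ξ) := by
  have key : ∀ η : E d, nm η = nm ξ →
      ‖fderiv ℝ (cu θ ε p) z η‖ ≤ |deriv θ (N (z - p) / ε)| * (2 / ε) * (nm (z - p) * nm ξ) := by
    intro η hη
    rw [fderiv_cu hθ, Complex.norm_real, Real.norm_eq_abs, abs_mul, abs_div, abs_mul,
      abs_of_pos hε, abs_two, mul_assoc]
    refine mul_le_mul_of_nonneg_left ?_ (abs_nonneg _)
    rw [mul_div_right_comm]
    refine mul_le_mul_of_nonneg_left ?_ (by positivity)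
    rw [← hη]
    have h1 := cs η (z - p)
    have h2 := Complex.abs_re_le_norm (ip η (z - p))
    linarith
  unfold db
  rw [norm_div, Complex.norm_ofNat, div_le_iff₀ (by norm_num)]
  refine (norm_add_le _ _).trans ?_
  rw [norm_mul, Complex.norm_I, one_mul]
  have h1 := key ξ rfl
  have h2 := key (I • ξ) (by
    unfold nm
    rw [N_smulc, Complex.norm_I, one_pow, one_mul])
  linarith

theorem nm_one {p : E d} (hp : N p = 1) : nm p = 1 := by
  unfold nm
  rw [hp, Real.sqrt_one]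

theorem ip_sub_left (z w p : E d) : ip (z - w) p = ip z p - ip w p := by
  have h := ip_add_left (z - w) w p
  rw [sub_add_cancel] at h
  rw [h]
  ring

theorem N_sub_p {p z : E d} (hp : N p = 1) : N (z - p) = N z + 1 - 2 * (ip z p).re := by
  have h1 := N_add (z - p) p
  rw [sub_add_cancel, hp, ip_sub_left, ip_self, hp] at h1
  simp only [Complex.sub_re, Complex.ofReal_re] at h1
  linarith

/-- the peak function is small away from `p` -/
theorem qq_sq {p z : E d} (hp : N p = 1) (hz : z ∈ B d) : ‖qq p z‖ ^ 2 ≤ 1 - N (z - p) / 4 := by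
  have h1 := N_sub_p (z := z) hp
  have h2 := cs z p
  rw [nm_one hp, mul_one] at h2
  have h3 : nm z < 1 := mem_B_nm.1 hz
  have h4 : N z < 1 := hz
  have h5 : ‖ip z p‖ ^ 2 ≤ 1 := by
    have h6 := norm_nonneg (ip z p)
    nlinarith
  have h6 : ‖qq p z‖ ^ 2 = (1 + 2 * (ip z p).re + ‖ip z p‖ ^ 2) / 4 := by
    unfold qq
    rw [norm_div, div_pow, Complex.norm_ofNat, ← Complex.normSq_eq_norm_sq, ← Complex.normSq_eq_norm_sq,
      Complex.normSq_apply, Complex.normSq_apply]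
    simp only [Complex.add_re, Complex.add_im, Complex.one_re, Complex.one_im]
    ring
  rw [h6]
  linarith

theorem qq_le_one {p z : E d} (hp : N p = 1) (hz : z ∈ B d) : ‖qq p z‖ ≤ 1 := by
  have h1 := qq_sq hp hz
  have h2 := N_nonneg (z - p)
  have h3 := norm_nonneg (qq p z)
  nlinarith

theorem qq_le_sqrt {p z : E d} (hp : N p = 1) (hz : z ∈ B d) {s : ℝ} (hs : s ≤ N (z - p)) :
    ‖qq p z‖ ≤ Real.sqrt (1 - s / 4) := by
  apply Real.le_sqrt_of_sq_le
  have h1 := qq_sq hp hz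
  linarith

theorem qq_sub_one {p z : E d} (hp : N p = 1) : ‖qq p z - 1‖ ≤ nm (z - p) / 2 := by
  have h1 : qq p z - 1 = ip (z - p) p / 2 := by
    unfold qq
    rw [ip_sub_left, ip_self, hp, Complex.ofReal_one]
    ring
  rw [h1, norm_div, Complex.norm_ofNat]
  have h2 := cs (z - p) p
  rw [nm_one hp, mul_one] at h2
  linarith

theorem pow_sub_one_le {q : ℂ} (hq : ‖q‖ ≤ 1) (m : ℕ) : ‖q ^ m - 1‖ ≤ m * ‖q - 1‖ := by
  induction m with
  | zero => simp
  | succ m ih =>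
    have h1 : q ^ (m + 1) - 1 = q * (q ^ m - 1) + (q - 1) := by ring
    rw [h1]
    refine (norm_add_le _ _).trans ?_
    rw [norm_mul]
    have h2 : ‖q‖ * ‖q ^ m - 1‖ ≤ 1 * ‖q ^ m - 1‖ := mul_le_mul_of_nonneg_right hq (norm_nonneg _)
    push_cast
    linarith

theorem qq_diff (p : E d) : Differentiable ℂ (qq p : E d → ℂ) := by
  have h : Differentiable ℂ (fun z : E d => ip z p) := by
    unfold ip
    fun_prop
  have h2 : Differentiable ℂ (fun z : E d => (1 + ip z p) * (2 : ℂ)⁻¹) := (h.const_add 1).mul_const _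
  have h3 : (qq p : E d → ℂ) = fun z : E d => (1 + ip z p) * (2 : ℂ)⁻¹ := by
    funext z
    unfold qq
    rw [div_eq_mul_inv]
  rw [h3]
  exact h2

/-- the localised function -/
noncomputable def ga (θ : ℝ → ℝ) (ε : ℝ) (p : E d) (h : E d → ℂ) (m : ℕ) (z : E d) : ℂ :=
  cu θ ε p z * (h z * qq p z ^ m)

theorem cu_norm {θ : ℝ → ℝ} (hθ : ∀ t, 0 ≤ θ t ∧ θ t ≤ 1) (ε : ℝ) (p z : E d) :
    ‖cu θ ε p z‖ ≤ 1 := by
  unfold cu
  rw [Complex.norm_real, Real.norm_eq_abs, abs_of_nonneg (hθ _).1]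
  exact (hθ _).2

theorem nm_cont' : Continuous (nm : E d → ℝ) := N_continuous.sqrt

theorem U_open (p : E d) (R : ℝ) : IsOpen {z : E d | z ∈ B d ∧ nm (z - p) < R} :=
  B_open.inter (isOpen_lt (nm_cont'.comp (continuous_id.sub continuous_const)) continuous_const)

theorem far_open (p : E d) (s : ℝ) : IsOpen {z : E d | s < N (z - p)} :=
  isOpen_lt continuous_const (N_continuous.comp (continuous_id.sub continuous_const))

theorem ga_far {θ : ℝ → ℝ} (hθ2 : ∀ t, 2 ≤ t → θ t = 0) {ε : ℝ} (hε : 0 < ε) (p : E d) (h : E d → ℂ) (m : ℕ)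
    {z : E d} (hz : 2 * ε < N (z - p)) : ga θ ε p h m =ᶠ[𝓝 z] fun _ => 0 := by
  filter_upwards [(far_open p (2 * ε)).mem_nhds hz] with w hw
  unfold ga cu
  rw [hθ2 _ ((le_div_iff₀ hε).2 (le_of_lt hw)), Complex.ofReal_zero, zero_mul]

theorem near_or {R ε : ℝ} (hR : 0 < R) (hε : 2 * ε < R ^ 2) (p z : E d) :
    nm (z - p) < R ∨ 2 * ε < N (z - p) := by
  by_cases h : nm (z - p) < R
  · exact Or.inl h
  · right
    push Not at h
    have h1 : R ^ 2 ≤ nm (z - p) ^ 2 := pow_le_pow_left₀ hR.le h 2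
    rw [nm_sq] at h1
    linarith

theorem ga_contDiffOn {θ : ℝ → ℝ} (hθ : ContDiff ℝ 1 θ) (hθ2 : ∀ t, 2 ≤ t → θ t = 0) {R ε : ℝ} (hR : 0 < R)
    (hε : 0 < ε) (hε1 : 2 * ε < R ^ 2) (p : E d) {h : E d → ℂ}
    (hh : ContDiffOn ℝ 1 h {z | z ∈ B d ∧ nm (z - p) < R}) (m : ℕ) : ContDiffOn ℝ 1 (ga θ ε p h m) (B d) := by
  intro z hz
  apply ContDiffAt.contDiffWithinAt
  rcases near_or hR hε1 p z with h1 | h1
  · have h2 : ContDiffAt ℝ 1 h z := hh.contDiffAt ((U_open p R).mem_nhds ⟨hz, h1⟩)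
    have h3 : ContDiffAt ℝ 1 (fun w : E d => qq p w ^ m) z := by
      have h4 : ContDiffOn ℝ 1 (fun w : E d => qq p w ^ m) (B d) :=
        cd_hol ((qq_diff p).pow m).differentiableOn
      exact h4.contDiffAt (B_open.mem_nhds hz)
    exact (cu_contDiff hθ ε p).contDiffAt.mul (h2.mul h3)
  · exact contDiffAt_const.congr_of_eventuallyEq (ga_far hθ2 hε p h m h1)

theorem ga_norm {θ : ℝ → ℝ} (hθ2 : ∀ t, 2 ≤ t → θ t = 0) (hθ : ∀ t, 0 ≤ θ t ∧ θ t ≤ 1) {R ε C : ℝ}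
    (hR : 0 < R) (hC : 0 < C)
    (hε : 0 < ε) (hε1 : 2 * ε < R ^ 2) {p : E d} (hp : N p = 1) {h : E d → ℂ}
    (hh : ∀ z ∈ B d, nm (z - p) < R → ‖h z‖ ≤ C) (m : ℕ) {z : E d} (hz : z ∈ B d) :
    ‖ga θ ε p h m z‖ ≤ C := by
  rcases near_or hR hε1 p z with h1 | h1
  · unfold ga
    rw [norm_mul, norm_mul, norm_pow]
    have h2 := cu_norm hθ ε p z
    have h3 := hh z hz h1
    have h4 : ‖qq p z‖ ^ m ≤ 1 := pow_le_one₀ (norm_nonneg _) (qq_le_one hp hz)
    calc ‖cu θ ε p z‖ * (‖h z‖ * ‖qq p z‖ ^ m) ≤ 1 * (C * 1) := by gcongr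
      _ = C := by ring
  · have h2 := (ga_far hθ2 hε p h m h1).eq_of_nhds
    rw [h2, norm_zero]
    exact hC.le

/-- the majorant -/
noncomputable def mj (ω : ℝ → ℝ) (D β κ C β' : ℝ) (m : ℕ) (z : E d) : ℝ :=
  D * β ^ m * Real.sqrt (min (1 - N z) 1) + C * ((if 1 - N z ≤ κ then ω (1 - N z) ^ 2 else 0) +
    β' ^ m * ω (1 - N z) ^ 2)

theorem db_ga {θ : ℝ → ℝ} (hθ : ContDiff ℝ 1 θ) (hθ2 : ∀ t, 2 ≤ t → θ t = 0)
    (hθ01 : ∀ t, 0 ≤ θ t ∧ θ t ≤ 1) {L : ℝ} (hL : 0 ≤ L)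
    (hθL : ∀ t, |deriv θ t| ≤ L) (hθd : ∀ t, t < 1 → deriv θ t = 0)
    {ω : ℝ → ℝ} {R ε C κ : ℝ} (hR : 0 < R) (hC : 0 < C) (hκ : 0 < κ)
    (hε : 0 < ε) (hε1 : 2 * ε < R ^ 2) {p : E d} (hp : N p = 1) {h : E d → ℂ}
    (hh : ContDiffOn ℝ 1 h {z | z ∈ B d ∧ nm (z - p) < R})
    (hhC : ∀ z ∈ B d, nm (z - p) < R → ‖h z‖ ≤ C)
    (hdb : ∀ z ∈ B d, nm (z - p) < R → ∀ ξ, ‖db h z ξ‖ ≤ C * ω (1 - N z) ^ 2 * len z ξ)
    (m : ℕ) {z : E d} (hz : z ∈ B d) (ξ : E d) :
    ‖db (ga θ ε p h m) z ξ‖ ≤ mj ω (C * (4 * L / ε)) (Real.sqrt (1 - ε / 4)) κ C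
      (Real.sqrt (1 - κ ^ 2 / 4 / 4)) m z * len z ξ := by
  have hl := len_nonneg z ξ
  have hz1 : N z < 1 := hz
  have hz2 := N_nonneg z
  have hmin : min (1 - N z) 1 = 1 - N z := min_eq_left (by linarith)
  have hmj0 : 0 ≤ (if 1 - N z ≤ κ then ω (1 - N z) ^ 2 else 0) := by
    split_ifs
    · positivity
    · exact le_rfl
  have hmj : 0 ≤ mj ω (C * (4 * L / ε)) (Real.sqrt (1 - ε / 4)) κ C
      (Real.sqrt (1 - κ ^ 2 / 4 / 4)) m z := by
    unfold mj
    positivity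
  rcases near_or hR hε1 p z with h1 | h1
  · have d1 : DifferentiableAt ℝ (cu θ ε p : E d → ℂ) z :=
      ((cu_contDiff hθ ε p).differentiable one_ne_zero).differentiableAt
    have d2 : DifferentiableAt ℝ h z :=
      (hh.contDiffAt ((U_open p R).mem_nhds ⟨hz, h1⟩)).differentiableAt one_ne_zero
    have d3 : DifferentiableAt ℂ (fun w : E d => qq p w ^ m) z := ((qq_diff p).pow m).differentiableAt
    have d3' : DifferentiableAt ℝ (fun w : E d => qq p w ^ m) z := d3.restrictScalars ℝ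
    have e1 : db (ga θ ε p h m) z ξ = cu θ ε p z * (qq p z ^ m * db h z ξ) +
        (h z * qq p z ^ m) * db (cu θ ε p) z ξ := by
      have e2 := db_mul d1 (d2.mul d3') ξ
      have e3 := db_mul d2 d3' ξ
      rw [db_hol d3, mul_zero, zero_add] at e3
      have e4 : db (fun w => h w * qq p w ^ m) z ξ = qq p z ^ m * db h z ξ := e3
      have e5 : db (ga θ ε p h m) z ξ = cu θ ε p z * db (fun w => h w * qq p w ^ m) z ξ +
        (h z * qq p z ^ m) * db (cu θ ε p) z ξ := e2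
      rw [e5, e4]
    have hq1 := qq_le_one hp hz
    have hq0 := norm_nonneg (qq p z)
    -- the first term
    have T1 : ‖qq p z‖ ^ m * ω (1 - N z) ^ 2 ≤ (if 1 - N z ≤ κ then ω (1 - N z) ^ 2 else 0) +
        Real.sqrt (1 - κ ^ 2 / 4 / 4) ^ m * ω (1 - N z) ^ 2 := by
      by_cases hk : 1 - N z ≤ κ
      · rw [if_pos hk]
        have h2 : ‖qq p z‖ ^ m ≤ 1 := pow_le_one₀ hq0 hq1
        have h3 : 0 ≤ Real.sqrt (1 - κ ^ 2 / 4 / 4) ^ m * ω (1 - N z) ^ 2 := by positivity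
        have h4 : ‖qq p z‖ ^ m * ω (1 - N z) ^ 2 ≤ 1 * ω (1 - N z) ^ 2 :=
          mul_le_mul_of_nonneg_right h2 (sq_nonneg _)
        linarith
      · rw [if_neg hk, zero_add]
        push Not at hk
        refine mul_le_mul_of_nonneg_right ?_ (sq_nonneg _)
        refine pow_le_pow_left₀ hq0 ?_ m
        apply qq_le_sqrt hp hz
        have h2 : 1 - nm z ≤ nm (z - p) := by
          have h6 := nm_add z (p - z)
          have e1 : z + (p - z) = p := by abel
          have e2 : nm (p - z) = nm (z - p) := by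
            rw [← nm_neg]
            congr 1
            abel
          rw [e1, nm_one hp, e2] at h6
          linarith
        have h3 : κ / 2 ≤ nm (z - p) := by
          have h4 : 1 - N z = (1 - nm z) * (1 + nm z) := by rw [← nm_sq]; ring
          have h5 : nm z < 1 := mem_B_nm.1 hz
          have h6 := nm_nonneg z
          nlinarith
        have h4 : (κ / 2) ^ 2 ≤ nm (z - p) ^ 2 := pow_le_pow_left₀ (by positivity) h3 2
        rw [nm_sq] at h4
        linarith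
    have T1' : ‖cu θ ε p z * (qq p z ^ m * db h z ξ)‖ ≤
        C * ((if 1 - N z ≤ κ then ω (1 - N z) ^ 2 else 0) +
        Real.sqrt (1 - κ ^ 2 / 4 / 4) ^ m * ω (1 - N z) ^ 2) * len z ξ := by
      rw [norm_mul, norm_mul, norm_pow]
      have h2 := cu_norm hθ01 ε p z
      have h3 := hdb z hz h1 ξ
      calc ‖cu θ ε p z‖ * (‖qq p z‖ ^ m * ‖db h z ξ‖) ≤
          1 * (‖qq p z‖ ^ m * (C * ω (1 - N z) ^ 2 * len z ξ)) := by gcongr
        _ = C * (‖qq p z‖ ^ m * ω (1 - N z) ^ 2) * len z ξ := by ring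
        _ ≤ _ := by gcongr
    -- the second term
    have T2 : ‖(h z * qq p z ^ m) * db (cu θ ε p) z ξ‖ ≤
        C * (4 * L / ε) * Real.sqrt (1 - ε / 4) ^ m * Real.sqrt (min (1 - N z) 1) * len z ξ := by
      have h2 := norm_db_cu hθ hε p z ξ
      by_cases h3 : N (z - p) < ε
      · rw [hθd _ ((div_lt_one hε).2 h3), abs_zero, zero_mul, zero_mul] at h2
        have h4 := le_antisymm h2 (norm_nonneg _)
        rw [norm_mul, h4, mul_zero]
        positivity
      · push Not at h3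
        have h4 : ‖qq p z‖ ^ m ≤ Real.sqrt (1 - ε / 4) ^ m :=
          pow_le_pow_left₀ hq0 (qq_le_sqrt hp hz h3) m
        have h5 : nm (z - p) ≤ 2 := by
          have h6 := nm_add z (-p)
          rw [← sub_eq_add_neg, nm_neg, nm_one hp] at h6
          have h7 : nm z < 1 := mem_B_nm.1 hz
          linarith
        have h6 := nm_le_len hz ξ
        have h7 := nm_nonneg ξ
        have h8 := nm_nonneg (z - p)
        have h9 := hθL (N (z - p) / ε)
        have h10 := hhC z hz h1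
        rw [norm_mul, norm_mul, norm_pow, hmin]
        have h11 : ‖db (cu θ ε p) z ξ‖ ≤ L * (2 / ε) * (2 * (Real.sqrt (1 - N z) * len z ξ)) := by
          refine h2.trans ?_
          gcongr
        calc ‖h z‖ * ‖qq p z‖ ^ m * ‖db (cu θ ε p) z ξ‖ ≤
            C * Real.sqrt (1 - ε / 4) ^ m * (L * (2 / ε) * (2 * (Real.sqrt (1 - N z) * len z ξ))) := by
              gcongr
          _ = _ := by ring
    rw [e1]
    refine (norm_add_le _ _).trans ?_
    unfold mj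
    rw [add_mul]
    linarith
  · have h3 : db (fun _ : E d => (0 : ℂ)) z ξ = 0 := by
      unfold db
      simp
    rw [db_congr (ga_far hθ2 hε p h m h1), h3, norm_zero]
    exact mul_nonneg hmj hl

/-- the integral of the majorant -/
theorem int_mj {ω : ℝ → ℝ} (hm : Monotone ω) {D β κ C β' A1 A2 s : ℝ} (hD : 0 ≤ D) (hβ : 0 ≤ β)
    (hC : 0 ≤ C) (hβ' : 0 ≤ β') (hA1 : 0 ≤ A1) (hA2 : 0 ≤ A2) (hs : 0 ≤ s) (m : ℕ) {z : E d}
    (h1 : ∫⁻ w in B d, ENNReal.ofReal (Real.sqrt (min (1 - N w) 1) * ker z w) ≤ ENNReal.ofReal A1)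
    (h2 : ∫⁻ w in B d, ENNReal.ofReal (ω (1 - N w) ^ 2 * ker z w) ≤ ENNReal.ofReal A2)
    (h3 : ∫⁻ w in B d, ENNReal.ofReal ((if 1 - N w ≤ κ then ω (1 - N w) ^ 2 else 0) * ker z w) ≤
      ENNReal.ofReal s) :
    ∫⁻ w in B d, ENNReal.ofReal (mj ω D β κ C β' m w * ker z w) ≤
      ENNReal.ofReal (D * β ^ m * A1 + C * (s + β' ^ m * A2)) := by
  have hN : Measurable (N : E d → ℝ) := N_continuous.measurable
  have hω : Measurable fun w : E d => ω (1 - N w) ^ 2 :=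
    (hm.measurable.comp (measurable_const.sub hN)).pow_const 2
  have hif : Measurable fun w : E d => (if 1 - N w ≤ κ then ω (1 - N w) ^ 2 else 0) :=
    Measurable.ite (measurableSet_le (measurable_const.sub hN) measurable_const) hω measurable_const
  have hsq : Measurable fun w : E d => Real.sqrt (min (1 - N w) 1) :=
    ((measurable_const.sub hN).min measurable_const).sqrt
  have hif0 : ∀ w : E d, 0 ≤ (if 1 - N w ≤ κ then ω (1 - N w) ^ 2 else 0) := by
    intro w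
    split_ifs
    · positivity
    · exact le_rfl
  have e : ∫⁻ w in B d, ENNReal.ofReal (mj ω D β κ C β' m w * ker z w) =
      ENNReal.ofReal (D * β ^ m) * (∫⁻ w in B d, ENNReal.ofReal (Real.sqrt (min (1 - N w) 1) * ker z w)) +
      (ENNReal.ofReal C * (∫⁻ w in B d, ENNReal.ofReal ((if 1 - N w ≤ κ then ω (1 - N w) ^ 2 else 0) *
        ker z w)) +
      ENNReal.ofReal (C * β' ^ m) * (∫⁻ w in B d, ENNReal.ofReal (ω (1 - N w) ^ 2 * ker z w))) := by
    rw [← lintegral_const_mul' _ _ ENNReal.ofReal_ne_top, ← lintegral_const_mul' _ _ ENNReal.ofReal_ne_top,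
      ← lintegral_const_mul' _ _ ENNReal.ofReal_ne_top, ← lintegral_add_left', ← lintegral_add_left']
    · congr 1
      funext w
      have k0 := ker_nonneg z w
      have k1 := hif0 w
      rw [← ENNReal.ofReal_mul (by positivity), ← ENNReal.ofReal_mul hC, ← ENNReal.ofReal_mul (by positivity),
        ← ENNReal.ofReal_add (by positivity) (by positivity), ← ENNReal.ofReal_add (by positivity) (by positivity)]
      congr 1
      unfold mj
      ring
    · exact (((hsq.mul (ker_meas z)).ennreal_ofReal).const_mul _).aemeasurable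
    · exact (((hif.mul (ker_meas z)).ennreal_ofReal).const_mul _).aemeasurable
  rw [e]
  calc _ ≤ ENNReal.ofReal (D * β ^ m) * ENNReal.ofReal A1 +
      (ENNReal.ofReal C * ENNReal.ofReal s + ENNReal.ofReal (C * β' ^ m) * ENNReal.ofReal A2) := by
        gcongr
    _ = _ := by
        rw [← ENNReal.ofReal_mul (by positivity), ← ENNReal.ofReal_mul hC, ← ENNReal.ofReal_mul (by positivity),
          ← ENNReal.ofReal_add (by positivity) (by positivity), ← ENNReal.ofReal_add (by positivity) (by positivity)]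
        congr 1
        ring

theorem mj_meas {ω : ℝ → ℝ} (hm : Monotone ω) (D β κ C β' : ℝ) (m : ℕ) :
    Measurable (mj ω D β κ C β' m : E d → ℝ) := by
  have hN : Measurable (N : E d → ℝ) := N_continuous.measurable
  have hω : Measurable fun w : E d => ω (1 - N w) ^ 2 :=
    (hm.measurable.comp (measurable_const.sub hN)).pow_const 2
  have hif : Measurable fun w : E d => (if 1 - N w ≤ κ then ω (1 - N w) ^ 2 else 0) :=
    Measurable.ite (measurableSet_le (measurable_const.sub hN) measurable_const) hω measurable_const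
  have hsq : Measurable fun w : E d => Real.sqrt (min (1 - N w) 1) :=
    ((measurable_const.sub hN).min measurable_const).sqrt
  unfold mj
  exact (measurable_const.mul hsq).add (measurable_const.mul (hif.add (measurable_const.mul hω)))

theorem sqrt_int : ∫⁻ t in Ioo (0 : ℝ) 1, ENNReal.ofReal (Real.sqrt (min t 1) / t) ≠ ⊤ := by
  have h1 : IntegrableOn (fun t : ℝ => t ^ (-(1 / 2) : ℝ)) (Ioo 0 1) :=
    (intervalIntegrable_iff_integrableOn_Ioo_of_le zero_le_one).1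
      (intervalIntegral.intervalIntegrable_rpow' (by norm_num))
  have h2 : ∫⁻ t in Ioo (0 : ℝ) 1, ENNReal.ofReal (t ^ (-(1 / 2) : ℝ)) < ⊤ := Integrable.lintegral_lt_top h1
  refine (lt_of_le_of_lt (setLIntegral_mono' measurableSet_Ioo fun t ht => ?_) h2).ne
  apply ENNReal.ofReal_le_ofReal
  have ht0 : 0 < t := ht.1
  rw [min_eq_left ht.2.le, Real.sqrt_eq_rpow]
  apply le_of_eq
  have h3 : t ^ (-(1 / 2) : ℝ) = t ^ ((1 / 2 : ℝ) - 1) := by norm_num
  rw [h3, Real.rpow_sub ht0, Real.rpow_one]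

/-- RK/LAL -/
theorem LAL_of (d : ℕ) (hC : Cmain d) (h9 : C9 d) (hT : TL d) : Pool.Agent.N290.RK.LAL d := by
  intro C R K ω hC0 hR hK hω hI η hη
  have hT' := hT K ω hK hω hI
  obtain ⟨hm, h0, -⟩ := hω
  obtain ⟨C₀, hC₀, hC⟩ := hC
  obtain ⟨c9, hc9, h9⟩ := h9
  obtain ⟨θ, L, hθ, hθ1, hθ2, hθ01, hL, hθL, hθd⟩ := exists_cut
  obtain ⟨κ, hκ, hTL⟩ := hT' (η / (4 * (C₀ * C))) (by positivity)
  obtain ⟨A1, hA1⟩ : ∃ A1 : ℝ, A1 = (ENNReal.ofReal c9 * (1 + ∫⁻ t in Ioo (0 : ℝ) 1,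
    ENNReal.ofReal (Real.sqrt (min t 1) / t))).toReal := ⟨_, rfl⟩
  obtain ⟨A2, hA2⟩ : ∃ A2 : ℝ, A2 = (ENNReal.ofReal c9 * (1 + ∫⁻ t in Ioo (0 : ℝ) 1,
    ENNReal.ofReal (ω t ^ 2 / t))).toReal := ⟨_, rfl⟩
  have hA10 : 0 ≤ A1 := by rw [hA1]; exact ENNReal.toReal_nonneg
  have hA20 : 0 ≤ A2 := by rw [hA2]; exact ENNReal.toReal_nonneg
  have hB1 : ∀ z ∈ B d, ∫⁻ w in B d, ENNReal.ofReal (Real.sqrt (min (1 - N w) 1) * ker z w) ≤
      ENNReal.ofReal A1 := by
    intro z hz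
    rw [hA1, ENNReal.ofReal_toReal]
    · refine h9 (fun t => Real.sqrt (min t 1)) (fun t t' h => Real.sqrt_le_sqrt (min_le_min_right 1 h))
        (fun t => Real.sqrt_nonneg _) (fun t => ?_) z hz
      refine Real.sqrt_le_iff.2 ⟨by norm_num, ?_⟩
      rw [one_pow]
      exact min_le_right _ _
    · exact ENNReal.mul_ne_top ENNReal.ofReal_ne_top (ENNReal.add_ne_top.2 ⟨ENNReal.one_ne_top, sqrt_int⟩)
  have hB2 : ∀ z ∈ B d, ∫⁻ w in B d, ENNReal.ofReal (ω (1 - N w) ^ 2 * ker z w) ≤ ENNReal.ofReal A2 := by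
    intro z hz
    rw [hA2, ENNReal.ofReal_toReal]
    · refine h9 (fun t => ω t ^ 2) (fun t t' h => pow_le_pow_left₀ (h0 t).1 (hm h) 2)
        (fun t => sq_nonneg _) (fun t => pow_le_one₀ (h0 t).1 (h0 t).2) z hz
    · exact ENNReal.mul_ne_top ENNReal.ofReal_ne_top (ENNReal.add_ne_top.2 ⟨ENNReal.one_ne_top, hI⟩)
  obtain ⟨ε, hε⟩ : ∃ ε : ℝ, ε = R ^ 2 / 16 := ⟨_, rfl⟩
  have hε0 : 0 < ε := by rw [hε]; positivity
  have hR2 : 0 < R ^ 2 := by positivity
  have hε1 : 2 * ε < R ^ 2 := by rw [hε]; linarith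
  obtain ⟨D, hD⟩ : ∃ D : ℝ, D = C * (4 * L / ε) := ⟨_, rfl⟩
  have hD0 : 0 ≤ D := by rw [hD]; positivity
  have hlt : ∀ x : ℝ, 0 < x → Real.sqrt (1 - x) < 1 := by
    intro x hx
    rw [Real.sqrt_lt' one_pos]
    linarith
  obtain ⟨m, hmm⟩ : ∃ m : ℕ, C₀ * D * A1 * Real.sqrt (1 - ε / 4) ^ m +
      C₀ * C * A2 * Real.sqrt (1 - κ ^ 2 / 4 / 4) ^ m < η / 4 := by
    have t1 := (tendsto_pow_atTop_nhds_zero_of_lt_one (Real.sqrt_nonneg (1 - ε / 4))
      (hlt (ε / 4) (by positivity))).const_mul (C₀ * D * A1)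
    have t2 := (tendsto_pow_atTop_nhds_zero_of_lt_one (Real.sqrt_nonneg (1 - κ ^ 2 / 4 / 4))
      (hlt (κ ^ 2 / 4 / 4) (by positivity))).const_mul (C₀ * C * A2)
    have t3 := t1.add t2
    rw [mul_zero, mul_zero, add_zero] at t3
    exact (t3.eventually (gt_mem_nhds (by positivity : (0 : ℝ) < η / 4))).exists
  refine ⟨min (R / 4) (η / (C * (m + 1))), by positivity, ?_⟩
  intro p hp h hh hhC hdb
  obtain ⟨H, hH, hHb⟩ := hC (ga θ ε p h m) C
    (mj ω D (Real.sqrt (1 - ε / 4)) κ C (Real.sqrt (1 - κ ^ 2 / 4 / 4)) m)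
    (ga_contDiffOn hθ hθ2 hR hε0 hε1 p hh m) (fun z hz => ga_norm hθ2 hθ01 hR hC0 hε0 hε1 hp hhC m hz)
    (mj_meas hm _ _ _ _ _ m)
    (fun z hz => by
      unfold mj
      have h3 : 0 ≤ (if 1 - N z ≤ κ then ω (1 - N z) ^ 2 else 0) := by
        split_ifs
        · positivity
        · exact le_rfl
      positivity)
    (fun z hz ξ => by
      rw [hD]
      exact db_ga hθ hθ2 hθ01 hL hθL hθd hR hC0 hκ hε0 hε1 hp hh hhC hdb m hz ξ)
  refine ⟨H, hH, ?_⟩
  intro z hz hzp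
  have h4 : ‖ga θ ε p h m z - H z‖ ≤ η / 2 := by
    have h5 := (hHb z hz).trans (mul_le_mul_right
      (int_mj (C := C) hm hD0 (Real.sqrt_nonneg (1 - ε / 4)) hC0.le (Real.sqrt_nonneg (1 - κ ^ 2 / 4 / 4)) hA10 hA20
        (by positivity) m (hB1 z hz) (hB2 z hz) (hTL z hz)) _)
    rw [← ENNReal.ofReal_mul hC₀.le] at h5
    have e : C₀ * (D * Real.sqrt (1 - ε / 4) ^ m * A1 + C * (η / (4 * (C₀ * C)) +
        Real.sqrt (1 - κ ^ 2 / 4 / 4) ^ m * A2)) = (C₀ * D * A1 * Real.sqrt (1 - ε / 4) ^ m +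
      C₀ * C * A2 * Real.sqrt (1 - κ ^ 2 / 4 / 4) ^ m) + η / 4 := by
      field_simp
      ring
    rw [e] at h5
    have h6 := h5.trans (ENNReal.ofReal_le_ofReal (by linarith : (C₀ * D * A1 * Real.sqrt (1 - ε / 4) ^ m +
      C₀ * C * A2 * Real.sqrt (1 - κ ^ 2 / 4 / 4) ^ m) + η / 4 ≤ η / 2))
    exact (ENNReal.ofReal_le_ofReal_iff (by positivity)).1 h6
  have h5 : nm (z - p) < R / 4 := lt_of_lt_of_le hzp (min_le_left _ _)
  have h6 : nm (z - p) ≤ η / (C * (m + 1)) := (lt_of_lt_of_le hzp (min_le_right _ _)).le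
  have h7 : N (z - p) / ε ≤ 1 := by
    rw [div_le_one hε0, ← nm_sq, hε]
    have h8 := nm_nonneg (z - p)
    nlinarith
  have h8 : ga θ ε p h m z = h z * qq p z ^ m := by
    unfold ga cu
    rw [hθ1 _ h7, Complex.ofReal_one, one_mul]
  have h9 : ‖h z * (qq p z ^ m - 1)‖ ≤ η / 2 := by
    rw [norm_mul]
    have k1 := hhC z hz (by linarith)
    have k2 := pow_sub_one_le (qq_le_one hp hz) m
    have k3 := qq_sub_one (z := z) hp
    have k4 : (m : ℝ) * ‖qq p z - 1‖ ≤ m * (η / (C * (m + 1)) / 2) := by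
      gcongr
      linarith
    calc ‖h z‖ * ‖qq p z ^ m - 1‖ ≤ C * (m * (η / (C * (m + 1)) / 2)) := by
          gcongr
          exact k2.trans k4
      _ = η / 2 * (m / (m + 1)) := by
          field_simp
      _ ≤ η / 2 * 1 := by
          gcongr
          rw [div_le_one (by positivity)]
          linarith
      _ = η / 2 := by ring
  have e3 : H z - h z = -(ga θ ε p h m z - H z) + h z * (qq p z ^ m - 1) := by
    rw [h8]
    ring
  rw [e3]
  refine (norm_add_le _ _).trans ?_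
  rw [norm_neg]
  linarith

end Pool.Agent.N602.RK
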